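import Mathlib

namespace Pool.Agent.Results.MP_081fbf_lc.RelSN

/-- The alphabet. -/
inductive L : Type
  | a | b | c | d

open L

/-- One rewrite step with a rule of `T`. -/
def Step (T : List (List L × List L)) (x y : List L) : Prop :=
  ∃ u v : List L, ∃ p ∈ T, x = u ++ p.1 ++ v ∧ y = u ++ p.2 ++ v

/-- The strict rules. -/
def R : List (List L × List L) :=
  [([a, d], [d, b]), ([a], [b, b, b]), ([d], []), ([a], []), ([b, c], [c, d, d]),
    ([a, c], [b, b, c, d])]

/-- The non-strict rules. -/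
def S : List (List L × List L) := [([b, d, b], [a, d]), ([a, d], [b, d, b])]

abbrev T : Type 1 := Ordinal.{0} ×ₗ ℕ ×ₗ ℕ

def mk (r : Ordinal.{0}) (y x : ℕ) : T := toLex (r, toLex (y, x))

theorem mk_lt {r r' : Ordinal.{0}} {y y' x x' : ℕ} :
    mk r y x < mk r' y' x' ↔ r < r' ∨ (r = r' ∧ (y < y' ∨ (y = y' ∧ x < x'))) := by
  simp only [mk, Prod.Lex.toLex_lt_toLex]

noncomputable def f : L → T → T
  | a, t => mk (ofLex t).1 ((ofLex (ofLex t).2).1 + 1) ((ofLex (ofLex t).2).2 + 1)
  | b, t => mk (ofLex t).1 (ofLex (ofLex t).2).1 ((ofLex (ofLex t).2).2 + 1)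
  | c, t => t
  | d, t => mk (Ordinal.omega0 * ((ofLex t).1 + 1) + ((ofLex (ofLex t).2).1 : ℕ))
      (ofLex (ofLex t).2).2 0

theorem fa (r : Ordinal.{0}) (y x : ℕ) : f a (mk r y x) = mk r (y + 1) (x + 1) := rfl
theorem fb (r : Ordinal.{0}) (y x : ℕ) : f b (mk r y x) = mk r y (x + 1) := rfl
theorem fd (r : Ordinal.{0}) (y x : ℕ) :
    f d (mk r y x) = mk (Ordinal.omega0 * (r + 1) + y) x 0 := rfl

theorem ex (t : T) : ∃ r y x, t = mk r y x := ⟨_, _, _, rfl⟩

theorem f_mono (l : L) : StrictMono (f l) := by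
  intro s t h
  obtain ⟨r, y, x, rfl⟩ := ex s
  obtain ⟨r', y', x', rfl⟩ := ex t
  cases l with
  | a =>
    rw [fa, fa]
    rw [mk_lt] at h ⊢
    rcases h with h | ⟨h, h'⟩
    · exact Or.inl h
    · exact Or.inr ⟨h, by omega⟩
  | b =>
    rw [fb, fb]
    rw [mk_lt] at h ⊢
    rcases h with h | ⟨h, h'⟩
    · exact Or.inl h
    · exact Or.inr ⟨h, by omega⟩
  | c => exact h
  | d =>
    rw [fd, fd]
    rw [mk_lt] at h ⊢
    rcases h with h | ⟨rfl, h | ⟨rfl, h⟩⟩
    · left
      have h1 : (y : Ordinal.{0}) < Ordinal.omega0 := Ordinal.natCast_lt_omega0 y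
      have h2 : r + 1 + 1 ≤ r' + 1 := by
        have : r + 1 ≤ r' := Order.add_one_le_iff.mpr h
        gcongr
      calc Ordinal.omega0 * (r + 1) + y < Ordinal.omega0 * (r + 1) + Ordinal.omega0 := by gcongr
        _ = Ordinal.omega0 * (r + 1 + 1) := by rw [mul_add Ordinal.omega0 (r + 1) 1, mul_one]
        _ ≤ Ordinal.omega0 * (r' + 1) := by gcongr
        _ ≤ _ := le_self_add
    · left
      have : (y : Ordinal.{0}) < y' := by exact_mod_cast h
      gcongr
    · exact Or.inr ⟨rfl, Or.inl h⟩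

noncomputable def I : List L → T × List T
  | [] => (mk 0 0 0, [])
  | c :: w => (mk 0 0 0, (I w).1 :: (I w).2)
  | a :: w => (f a (I w).1, (I w).2)
  | b :: w => (f b (I w).1, (I w).2)
  | d :: w => (f d (I w).1, (I w).2)

def LT (p q : T × List T) : Prop :=
  p.2.length = q.2.length ∧ List.Lex (· < ·) (p.1 :: p.2) (q.1 :: q.2)

theorem lt_head (l : L) (p q : T × List T) (h : LT p q) : LT (f l p.1, p.2) (f l q.1, q.2) := by
  obtain ⟨p1, p2⟩ := p
  obtain ⟨q1, q2⟩ := q
  obtain ⟨h1, h2⟩ := h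
  refine ⟨h1, ?_⟩
  simp only at h2 ⊢
  cases h2 with
  | rel h => exact List.Lex.rel (f_mono l h)
  | cons h => exact List.Lex.cons h

theorem lt_ctx (u x y : List L) (h : LT (I x) (I y)) : LT (I (u ++ x)) (I (u ++ y)) := by
  induction u with
  | nil => exact h
  | cons l u ih =>
    cases l with
    | a => exact lt_head a _ _ ih
    | b => exact lt_head b _ _ ih
    | d => exact lt_head d _ _ ih
    | c => exact ⟨congrArg (· + 1) ih.1, List.Lex.cons ih.2⟩

theorem eq_ctx (u x y : List L) (h : I x = I y) : I (u ++ x) = I (u ++ y) := by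
  induction u with
  | nil => exact h
  | cons l u ih => cases l <;> simp only [List.cons_append, I, ih]

theorem stepS (x y : List L) (h : Step S x y) : I y = I x := by
  obtain ⟨u, v, p, hp, rfl, rfl⟩ := h
  rw [List.append_assoc, List.append_assoc]
  apply eq_ctx
  obtain ⟨r, y, x, e⟩ := ex (I v).1
  simp only [S, List.mem_cons, List.not_mem_nil, or_false] at hp
  rcases hp with rfl | rfl <;>
    simp only [List.cons_append, List.nil_append, I, e, fa, fb, fd]

theorem stepR (x y : List L) (h : Step R x y) : LT (I y) (I x) := by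
  obtain ⟨u, v, p, hp, rfl, rfl⟩ := h
  rw [List.append_assoc, List.append_assoc]
  apply lt_ctx
  obtain ⟨r, y, x, e⟩ := ex (I v).1
  have h1 : r < Ordinal.omega0 * (r + 1) + y := by
    calc r < r + 1 := lt_add_one r
      _ ≤ Ordinal.omega0 * (r + 1) := Ordinal.le_mul_right _ Ordinal.omega0_pos
      _ ≤ _ := le_self_add
  simp only [R, List.mem_cons, List.not_mem_nil, or_false] at hp
  rcases hp with rfl | rfl | rfl | rfl | rfl | rfl <;>
    simp only [List.cons_append, List.nil_append, I, e, fa, fb, fd] <;>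
    refine ⟨by simp, List.Lex.rel ?_⟩ <;>
    simp only [e] <;> rw [mk_lt] <;> simp [h1]

theorem result (x : ℕ → List L) (hx : ∀ n, Step (R ++ S) (x n) (x (n + 1))) :
    {n | Step R (x n) (x (n + 1))}.Finite := by
  let m : ℕ → List T := fun n => (I (x n)).1 :: (I (x n)).2
  have hR : ∀ n, Step R (x n) (x (n + 1)) → List.Shortlex (· < ·) (m (n + 1)) (m n) := by
    intro n h
    obtain ⟨h1, h2⟩ := stepR _ _ h
    exact List.Shortlex.of_lex (congrArg (· + 1) h1) h2
  have hall : ∀ n, List.Shortlex (· < ·) (m (n + 1)) (m n) ∨ m (n + 1) = m n := by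
    intro n
    obtain ⟨u, v, p, hp, h1, h2⟩ := hx n
    rcases List.mem_append.mp hp with hp | hp
    · exact Or.inl (hR n ⟨u, v, p, hp, h1, h2⟩)
    · right
      simp only [m, stepS _ _ ⟨u, v, p, hp, h1, h2⟩]
  have wf : WellFounded (List.Shortlex (fun s t : T => s < t)) := List.Shortlex.wf wellFounded_lt
  have hwo : IsWellOrder _ (List.Shortlex (fun s t : T => s < t)) := { wf := wf }
  obtain ⟨_, ⟨N, rfl⟩, hN⟩ := wf.has_min (Set.range m) (Set.range_nonempty m)
  have hc : ∀ k, m (N + k) = m N := by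
    intro k
    induction k with
    | zero => rfl
    | succ k ih =>
      rcases hall (N + k) with h | h
      · rw [ih] at h
        exact absurd h (hN _ ⟨_, rfl⟩)
      · exact h.trans ih
  refine (Set.finite_lt_nat N).subset ?_
  intro n hn
  by_contra hlt
  obtain ⟨k, rfl⟩ := Nat.exists_eq_add_of_le (not_lt.mp hlt)
  have h := hR _ hn
  rw [hc k] at h
  exact hN _ ⟨_, rfl⟩ h

end Pool.Agent.Results.MP_081fbf_lc.RelSN
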